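import Pool.Agent.Y504.CO.Gen
import Pool.Agent.W564.SC.Defs

/-!
# `Ω`-stability and points at which the closing lemma holds
-/

set_option autoImplicit false
set_option linter.unusedSectionVars false

open scoped Manifold ContDiff Topology
open Filter Set Metric

universe u

namespace Pool.Agent.Q154.OS

open Pool.Agent.H718R2.G Pool.Agent.TH80.OMS Pool.Agent.Y504.CO Pool.Agent.W564.SC

/-- Every continuous map of a nonempty compact space has a recurrent point in every nonempty closed
invariant set. -/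
theorem exists_rec {X : Type*} [TopologicalSpace X] [CompactSpace X] [T2Space X] (f : X → X)
    (hf : Continuous f) (K : Set X) (hK : IsClosed K) (hne : K.Nonempty) (hfK : ∀ x ∈ K, f x ∈ K) :
    ∃ x ∈ K, x ∈ Rec f := by
  -- minimal closed invariant subsets
  let S : Set (Set X) := {A | IsClosed A ∧ A.Nonempty ∧ A ⊆ K ∧ ∀ x ∈ A, f x ∈ A}
  obtain ⟨A, hAK, hA⟩ : ∃ A, A ⊆ K ∧ Minimal (fun A => A ∈ S) A := by
    refine zorn_superset_nonempty S ?_ K ⟨hK, hne, Subset.rfl, hfK⟩
    intro c hcS hc hcne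
    refine ⟨⋂₀ c, ⟨isClosed_sInter fun s hs => (hcS hs).1, ?_, ?_, ?_⟩, fun s hs => sInter_subset_of_mem hs⟩
    · have := hcne.to_subtype
      refine IsCompact.nonempty_sInter_of_directed_nonempty_isCompact_isClosed (S := c) ?_
        (fun s hs => (hcS hs).2.1) (fun s hs => (hcS hs).1.isCompact) (fun s hs => (hcS hs).1)
      intro A hA B hB
      rcases hc.total hA hB with h | h
      · exact ⟨A, hA, Subset.rfl, h⟩
      · exact ⟨B, hB, h, Subset.rfl⟩
    · obtain ⟨s, hs⟩ := hcne
      exact (sInter_subset_of_mem hs).trans (hcS hs).2.2.1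
    · intro x hx s hs
      exact (hcS hs).2.2.2 x (hx s hs)
  obtain ⟨hAc, ⟨x, hx⟩, -, hAf⟩ := hA.prop
  refine ⟨x, hAK hx, fun W hW => ?_⟩
  have hB : closure (range fun k : ℕ => f^[k + 1] x) ∈ S := by
    refine ⟨isClosed_closure, ⟨f x, subset_closure ⟨0, rfl⟩⟩, ?_, ?_⟩
    · have h1 : closure (range fun k : ℕ => f^[k + 1] x) ⊆ A := by
        refine closure_minimal ?_ hAc
        rintro _ ⟨k, rfl⟩
        have h2 : ∀ k, f^[k] x ∈ A := by
          intro k
          induction k with
          | zero => exact hx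
          | succ k ih => rw [Function.iterate_succ_apply']; exact hAf _ ih
        exact h2 _
      exact h1.trans hAK
    · intro y hy
      have h1 : MapsTo f (range fun k : ℕ => f^[k + 1] x) (range fun k : ℕ => f^[k + 1] x) := by
        rintro _ ⟨k, rfl⟩
        exact ⟨k + 1, by simp only [Function.iterate_succ_apply']⟩
      exact h1.closure hf hy
  have hBA : closure (range fun k : ℕ => f^[k + 1] x) ⊆ A := by
    refine closure_minimal ?_ hAc
    rintro _ ⟨k, rfl⟩
    have h2 : ∀ k, f^[k] x ∈ A := by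
      intro k
      induction k with
      | zero => exact hx
      | succ k ih => rw [Function.iterate_succ_apply']; exact hAf _ ih
    exact h2 _
  have hx2 : x ∈ closure (range fun k : ℕ => f^[k + 1] x) := hA.le_of_le hB hBA hx
  rw [mem_closure_iff_nhds] at hx2
  obtain ⟨y, hyW, ⟨k, rfl⟩⟩ := hx2 W hW
  exact ⟨k + 1, by omega, hyW⟩

/-- A recurrent point of a homeomorphism, in the form used in the closing lemma. -/
theorem isRec_of_rec {X : Type*} [TopologicalSpace X] (f : X ≃ₜ X) {x : X} (hx : x ∈ Rec f) :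
    IsRec f x := by
  intro hemb
  have hpow : ∀ k : ℕ, (f ^ (k : ℤ)) x = f^[k] x := by
    intro k
    induction k with
    | zero => rfl
    | succ k ih =>
      rw [Function.iterate_succ_apply', ← ih]
      have h1 : f ^ (((k + 1 : ℕ)) : ℤ) = f * f ^ (k : ℤ) := by
        rw [Nat.cast_succ, add_comm, zpow_add, zpow_one]
      rw [h1]
      rfl
  have h0 : ({0} : Set ℤ) ∈ 𝓝 (0 : ℤ) := (isOpen_discrete _).mem_nhds rfl
  rw [hemb.isInducing.nhds_eq_comap, mem_comap] at h0
  obtain ⟨W, hW, hsub⟩ := h0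
  have hW' : W ∈ 𝓝 x := by
    have : (f ^ (0 : ℤ)) x = x := rfl
    rwa [this] at hW
  obtain ⟨k, hk, hkW⟩ := hx W hW'
  have h2 : (k : ℤ) ∈ ({0} : Set ℤ) := hsub (by
    show (f ^ (k : ℤ)) x ∈ W
    rw [hpow]
    exact hkW)
  have h3 : (k : ℤ) = 0 := h2
  omega

theorem omegaConj_symm {X : Type u} [TopologicalSpace X] {F G : X → X} (hF : Continuous F)
    (h : OmegaConj F G) : OmegaConj G F := by
  obtain ⟨h, hh⟩ := h
  exact ⟨h.symm, conj_symm hF h hh⟩

/-- points of period `k` are transported -/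
theorem per_conj {X : Type u} [TopologicalSpace X] {F G : X → X} (hF : Continuous F)
    (h : OmegaConj F G) {k : ℕ} (hk : 1 ≤ k) {x : X} (hx : F^[k] x = x) : ∃ y, G^[k] y = y := by
  obtain ⟨h, hh⟩ := h
  exact ⟨h ⟨x, per_mem_omega hk hx⟩, conj_iter hF h hh k ⟨x, per_mem_omega hk hx⟩
    ⟨x, per_mem_omega hk hx⟩ hx⟩

variable {n : ℕ} {N : Type u} [TopologicalSpace N] [T2Space N] [CompactSpace N]
  [ChartedSpace (V n) N] [IsManifold (𝓡 n) ∞ N]

/-- An `Ω`-stable diffeomorphism which can be closed up at some point has periodic points. More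
precisely this holds for all maps `F'` of a neighbourhood. -/
theorem per_of_closable {r : ℕ∞} {F : DiffM n N r} (hF : OmegaStable n N r F) :
    ∃ U : Set (DiffM n N r), IsOpen[strongTop n N r] U ∧ F ∈ U ∧ ∀ F' ∈ U, ∀ z : N,
      Closable n N r F' z → (Per F').Nonempty := by
  obtain ⟨U, hU, hFU, h⟩ := hF
  refine ⟨U, hU, hFU, fun F' hF' z hz => ?_⟩
  obtain ⟨G, hG, k, hk, hGk⟩ := hz U hU hF'
  obtain ⟨y, hy⟩ := per_conj G.continuous (omegaConj_symm F.continuous (h G hG)) hk hGk
  obtain ⟨y', hy'⟩ := per_conj F.continuous (h F' hF') hk hy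
  exact ⟨y', k, hk, hy'⟩

end Pool.Agent.Q154.OS
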