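import Pool.Agent.Q154.OS.Basic
import Pool.Agent.Y271.CP.Torus

/-!
# `Ω`-stability and products with maps which have an open set of periodic points
-/

set_option autoImplicit false
set_option linter.unusedSectionVars false

open scoped Manifold ContDiff Topology
open Filter Set Metric

universe u v w

namespace Pool.Agent.Q154.OS

open Pool.Agent.H718R2.G Pool.Agent.TH80.OMS Pool.Agent.Y504.CO Pool.Agent.W564.SC
  Pool.Agent.Y271.CP

/-- `N = M × Y` by a smooth diffeomorphism `Θ`, and `F = f × h`, where `f` is an arbitrary homeomorphism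
of `M`, and `h` is a smooth diffeomorphism of `Y` whose set of periodic points has interior points. -/
def IsProdFin (m k n : ℕ) (M : Type v) [TopologicalSpace M] [ChartedSpace (V m) M]
    (Y : Type w) [TopologicalSpace Y] [ChartedSpace (V k) Y]
    (N : Type u) [TopologicalSpace N] [ChartedSpace (V n) N] (F : N → N) : Prop :=
  ∃ (Θ : ProdDiffeo m k n M Y N) (f : M ≃ₜ M) (h : Diffeomorph (𝓡 k) (𝓡 k) Y Y ∞),
    (interior (Function.periodicPts h)).Nonempty ∧ ∀ x y, F (atP Θ x y) = atP Θ (f x) (h y)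

/-- nonempty open subsets of manifolds of positive dimension are infinite -/
theorem infinite_of_open {k : ℕ} (hk : 1 ≤ k) {Y : Type w} [TopologicalSpace Y]
    [ChartedSpace (V k) Y] {O : Set Y} (hO : IsOpen O) (hne : O.Nonempty) : O.Infinite := by
  obtain ⟨y, hy⟩ := hne
  have hnt : Nontrivial (V k) := by
    have : Nonempty (Fin k) := ⟨⟨0, hk⟩⟩
    infer_instance
  obtain ⟨e, he⟩ : ∃ e, e = chartAt (V k) y := ⟨_, rfl⟩
  have hye : y ∈ e.source := by rw [he]; exact mem_chart_source _ y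
  have h1 : IsOpen (e.target ∩ e.symm ⁻¹' O) := e.isOpen_inter_preimage_symm hO
  have h2 : e y ∈ e.target ∩ e.symm ⁻¹' O := by
    refine ⟨e.map_source hye, ?_⟩
    show e.symm (e y) ∈ O
    rw [e.left_inv hye]
    exact hy
  have h3 : (e.target ∩ e.symm ⁻¹' O).Infinite := infinite_of_mem_nhds (e y) (h1.mem_nhds h2)
  have h4 : (e.symm '' (e.target ∩ e.symm ⁻¹' O)).Infinite :=
    h3.image fun a ha b hb hab => e.symm.injOn ha.1 hb.1 hab
  refine h4.mono ?_
  rintro _ ⟨v, hv, rfl⟩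
  exact hv.2

/-- an open set of periodic points contains an open set of points of the same period -/
theorem exists_open_period {Y : Type w} [TopologicalSpace Y] [T2Space Y] [BaireSpace Y] (h : Y → Y)
    (hh : Continuous h) (hne : (interior (Function.periodicPts h)).Nonempty) :
    ∃ (b : ℕ) (O : Set Y), 1 ≤ b ∧ IsOpen O ∧ O.Nonempty ∧ (∀ y ∈ O, h^[b] y = y) ∧
      O ⊆ interior (Function.periodicPts h) := by
  obtain ⟨I, hI⟩ : ∃ I, I = interior (Function.periodicPts h) := ⟨_, rfl⟩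
  have hIo : IsOpen I := by rw [hI]; exact isOpen_interior
  have hcl : ∀ b : ℕ, IsClosed ({y | h^[b + 1] y = y} ∪ Iᶜ) := fun b =>
    (isClosed_eq (hh.iterate _) continuous_id).union hIo.isClosed_compl
  have hU : (⋃ b : ℕ, ({y | h^[b + 1] y = y} ∪ Iᶜ)) = univ := by
    apply eq_univ_of_forall
    intro y
    rw [mem_iUnion]
    by_cases hy : y ∈ I
    · rw [hI] at hy
      obtain ⟨b, hb, hby⟩ := interior_subset hy
      refine ⟨b - 1, Or.inl ?_⟩
      show h^[b - 1 + 1] y = y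
      rw [Nat.sub_add_cancel hb]
      exact hby
    · exact ⟨0, Or.inr hy⟩
  have hd := dense_iUnion_interior_of_closed hcl hU
  rw [← hI] at hne
  obtain ⟨y, hyI, hy⟩ := hd.inter_open_nonempty I hIo hne
  rw [mem_iUnion] at hy
  obtain ⟨b, hb⟩ := hy
  refine ⟨b + 1, I ∩ interior ({y | h^[b + 1] y = y} ∪ Iᶜ), by omega, hIo.inter isOpen_interior,
    ⟨y, hyI, hb⟩, ?_, ?_⟩
  · rintro z ⟨hzI, hz⟩
    rcases interior_subset hz with h1 | h1
    · exact h1
    · exact absurd hzI h1
  · rw [← hI]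
    exact inter_subset_left

variable {m k n : ℕ} {M : Type v} [TopologicalSpace M] [ChartedSpace (V m) M]
  {Y : Type w} [TopologicalSpace Y] [T2Space Y] [ChartedSpace (V k) Y] [IsManifold (𝓡 k) ∞ Y]
  {N : Type u} [TopologicalSpace N] [T2Space N] [CompactSpace N] [ChartedSpace (V n) N]
  [IsManifold (𝓡 n) ∞ N]

/-- Limits of products with maps which have an open set of periodic points are not `Ω`-stable. -/
theorem not_stable_of_prodFin (hk : 2 ≤ k) (r : ℕ∞) (hr : 1 ≤ r) (F : DiffM n N r) [Nonempty N]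
    (h : ∀ U : Set (DiffM n N r), IsOpen[strongTop n N r] U → F ∈ U →
      ∃ F' ∈ U, IsProdFin m k n M Y N F') : ¬ OmegaStable n N r F := by
  intro hF
  obtain ⟨U₁, hU₁, hFU₁, hfin⟩ := finite_per hr hF
  obtain ⟨U₂, hU₂, hFU₂, hper⟩ := per_of_closable hF
  obtain ⟨F', ⟨hF'₁, hF'₂⟩, Θ, f, g, hint, hprod⟩ := h (U₁ ∩ U₂)
    (@IsOpen.inter _ (strongTop n N r) _ _ hU₁ hU₂) ⟨hFU₁, hFU₂⟩
  -- topology of `M` and `Y`
  have hMY : CompactSpace (M × Y) := Θ.toHomeomorph.symm.compactSpace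
  obtain ⟨z₀⟩ := ‹Nonempty N›
  obtain ⟨x₀, y₀⟩ : M × Y := Θ.symm z₀
  have hMc : CompactSpace M := by
    refine ⟨?_⟩
    have h1 : IsCompact (Prod.fst '' (univ : Set (M × Y))) := isCompact_univ.image continuous_fst
    rwa [image_univ, range_eq_univ.2 (fun x => ⟨(x, y₀), rfl⟩)] at h1
  have hYc : CompactSpace Y := by
    refine ⟨?_⟩
    have h1 : IsCompact (Prod.snd '' (univ : Set (M × Y))) := isCompact_univ.image continuous_snd
    rwa [image_univ, range_eq_univ.2 (fun y => ⟨(x₀, y), rfl⟩)] at h1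
  have hM2 : T2Space M := by
    refine T2Space.of_injective_continuous (f := fun x : M => Θ (x, y₀)) ?_ ?_
    · intro a b hab
      have h1 := Θ.injective hab
      exact (Prod.mk.inj h1).1
    · exact Θ.continuous.comp (by fun_prop)
  obtain ⟨b, O, hb, hO, hOne, hOb, hOI⟩ := exists_open_period (g : Y → Y) g.continuous hint
  obtain ⟨y₁, hy₁⟩ := hOne
  -- a recurrent point of `f`
  obtain ⟨e, he⟩ : ∃ e : (Set.univ : Set M) ≃ₜ M, ∀ l, e l = l.1 := ⟨Homeomorph.Set.univ M, fun _ => rfl⟩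
  have he' : ∀ l : M, ((e.symm l : (Set.univ : Set M)) : M) = l := by
    intro l
    rw [← he, e.apply_symm_apply]
  have hcs : CompactSpace (Set.univ : Set M) := e.symm.compactSpace
  obtain ⟨f', hf'⟩ : ∃ f' : (Set.univ : Set M) ≃ₜ (Set.univ : Set M), f' = e.trans (f.trans e.symm) :=
    ⟨_, rfl⟩
  have hf'2 : ∀ l : (Set.univ : Set M), ((f' l : (Set.univ : Set M)) : M) = f l := by
    intro l
    rw [hf']
    show (e.symm (f (e l)) : M) = f l
    rw [he', he]
  obtain ⟨x, -, hx⟩ := exists_rec f' f'.continuous univ isClosed_univ ⟨⟨x₀, mem_univ _⟩, mem_univ _⟩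
    (fun _ _ => mem_univ _)
  have hPP : ProdPer Θ F' (x : M) y₁ := by
    refine ⟨univ, f', g, mem_univ _, isRec_of_rec f' hx, subset_closure (hOI hy₁), ?_⟩
    intro l y
    rw [hprod, hf'2]
  have hcl : Closable n N r F' (Θ ((x : M), y₁)) :=
    Pool.Agent.Y271.CP.main hk r hr Θ F' (x : M) y₁ fun U _ hFU => ⟨F', hFU, hPP⟩
  obtain ⟨P, c, hc, hP⟩ := hper F' hF'₂ _ hcl
  obtain ⟨⟨p, q⟩, rfl⟩ := Θ.surjective P
  have hit : ∀ (i : ℕ) (a : M) (y : Y), F'^[i] (Θ (a, y)) = Θ (f^[i] a, g^[i] y) := by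
    intro i
    induction i with
    | zero => intro a y; rfl
    | succ i ih =>
      intro a y
      rw [Function.iterate_succ_apply', ih, Function.iterate_succ_apply', Function.iterate_succ_apply']
      exact hprod _ _
  have hp : f^[c] p = p := by
    have h1 : Θ (f^[c] p, g^[c] q) = Θ (p, q) := by
      rw [← hit]
      exact hP
    exact (Prod.mk.inj (Θ.injective h1)).1
  have hinf : ((fun y => Θ (p, y)) '' O).Infinite := by
    refine (infinite_of_open (k := k) (by omega) hO ⟨y₁, hy₁⟩).image ?_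
    intro a _ b _ hab
    exact (Prod.mk.inj (Θ.injective hab)).2
  refine hinf ((hfin F' hF'₁ (c * b) (Nat.mul_pos (by omega) (by omega))).subset ?_)
  rintro _ ⟨y, hy, rfl⟩
  show F'^[c * b] (Θ (p, y)) = Θ (p, y)
  rw [hit]
  have h1 : f^[c * b] p = p := by
    have : Function.IsPeriodicPt f c p := hp
    exact this.mul_const b
  have h2 : g^[c * b] y = y := by
    have : Function.IsPeriodicPt g b y := hOb y hy
    exact this.const_mul c
  rw [h1, h2]

/-- Products with isometries: `h ^ q` belongs to a torus of diffeomorphisms which commute with `h`. -/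
theorem limit_prodFin {d : ℕ} (r : ℕ∞) (hr : 1 ≤ r)
    (Θ : ProdDiffeo m k n M Y N) (F : DiffM n N r)
    (φ : V d → Y → Y) (hφ : IsAct k φ) (hint : ∀ s : V d, (∀ i, ∃ c : ℤ, s i = c) → ∀ y, φ s y = y)
    (h : Diffeomorph (𝓡 k) (𝓡 k) Y Y ∞) (hcomm : ∀ s y, h (φ s y) = φ s (h y))
    (q : ℕ) (hq : 1 ≤ q) (θ : V d) (hhq : ∀ y, h^[q] y = φ θ y) (f : M ≃ₜ M)
    (hF : ∀ x y, F (Θ (x, y)) = Θ (f x, h y)) [Nonempty N] :
    ∀ U : Set (DiffM n N r), IsOpen[strongTop n N r] U → F ∈ U →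
      ∃ F' ∈ U, IsProdFin m k n M Y N F' := by
  intro U hU hFU
  obtain ⟨z₀⟩ := ‹Nonempty N›
  have h0 : prodD hφ Θ F 0 = F := by
    ext z
    show Θ ((Θ.symm (F z)).1, φ 0 (Θ.symm (F z)).2) = F z
    rw [hφ.zero, Prod.mk.eta, Θ.apply_symm_apply]
  obtain ⟨κ, hκ, hκ2⟩ := Pool.Agent.TH80.CLX.fam_mem r hr _ (prodD_fam hφ Θ F)
    z₀ U hU (by rw [h0]; exact hFU)
  obtain ⟨s, p, hs, hp, hsp⟩ := exists_rat θ q hq κ hκ
  refine ⟨prodD hφ Θ F s, hκ2 s hs, Θ, f, actD hφ h s, ?_, ?_⟩
  · have hall : Function.periodicPts (actD hφ h s) = univ := by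
      apply eq_univ_of_forall
      intro y'
      refine ⟨q * p, Nat.mul_pos (by omega) (by omega), ?_⟩
      show (fun y => φ s (h y))^[q * p] y' = y'
      rw [iter_act hφ h hcomm]
      have h1 : ∀ c : ℕ, h^[q * c] y' = φ ((c : ℝ) • θ) y' := by
        intro c
        induction c with
        | zero => rw [Nat.cast_zero, zero_smul, hφ.zero]; rfl
        | succ c ih =>
          rw [Nat.mul_succ, add_comm, Function.iterate_add_apply, ih, hhq, ← hφ.add]
          congr 1
          push_cast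
          rw [add_smul, one_smul, add_comm]
      rw [h1, ← hφ.add]
      apply hint
      intro i
      obtain ⟨c, hc⟩ := hsp i
      refine ⟨c, ?_⟩
      rw [← hc]
      show ((q * p : ℕ) : ℝ) * s i + (p : ℝ) * θ i = _
      push_cast
      ring
    rw [hall, interior_univ]
    exact ⟨(Θ.symm z₀).2, mem_univ _⟩
  · intro x y
    show Θ ((Θ.symm (F (Θ (x, y)))).1, φ s (Θ.symm (F (Θ (x, y)))).2) = _
    rw [hF, Θ.symm_apply_apply]
    rfl

end Pool.Agent.Q154.OS
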