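import Pool.Agent.Q154.OS.Loc
import Pool.Agent.Y368.CL.RvG

/-!
# Local closing or slow returns

The proof is the one of `Pool/Agent/Y368/CL/RvG.lean`, with the local closing criterion.
-/

set_option autoImplicit false
set_option linter.unusedSectionVars false

open scoped Manifold ContDiff Topology
open Filter Set Metric

universe u

namespace Pool.Agent.Q154.OS

open Pool.Agent.H718R2.G Pool.Agent.W564.SC Pool.Agent.Y368.CL

theorem loc_main : ∃ a : ℕ → ℕ → ℕ, ∀ (n : ℕ) (N : Type u) [MetricSpace N] [CompactSpace N]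
    [ChartedSpace (V n) N] [IsManifold (𝓡 n) ∞ N], ChartLip n N → ∀ r : ℕ∞, 2 ≤ r →
    ∀ (F : DiffM n N r) (Λ : ℕ → ℝ), (∀ m, LipTo F m (Λ m)) → (∀ m : ℕ, (m : ℝ) ≤ Λ m) → ∀ z : N,
      LocClosable n N r F z ∨ ∃ k : ℕ, (k : ℕ∞) ≤ r ∧ ∃ W ∈ 𝓝 z, ∃ c : ℝ, 0 < c ∧
        ∀ y ∈ W, ∀ m : ℕ, 1 ≤ m → c / (Λ m) ^ a n k ≤ dist (F^[m] y) y := by
  choose aa haa using fun D k : ℕ => t_ABS D (max k 1) (le_max_right _ _)
  refine ⟨fun D k => 4 * aa D k, ?_⟩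
  intro n N _ _ _ _ hN r hr F Λ hΛ hmΛ z
  have hr1 : (1 : ℕ∞) ≤ r := le_trans (by norm_num) hr
  by_cases hcl : LocClosable n N r F z
  · exact Or.inl hcl
  right
  unfold LocClosable at hcl
  push Not at hcl
  obtain ⟨U, hU, hFU, O, hO, hzO, hno⟩ := hcl
  obtain ⟨χ, hχ⟩ := Pool.Agent.W699.SC.gc n N z
  obtain ⟨k, hkr, κ, hκ, hcl⟩ := loc_cl hr1 F χ z hχ U hU hFU O hO hzO
  have hk1r : ((max k 1 : ℕ) : ℕ∞) ≤ r := by
    rcases le_total k 1 with h | h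
    · rw [max_eq_right h]
      simpa using hr1
    · rw [max_eq_left h]
      exact hkr
  obtain ⟨C₀, hC16, hDB⟩ := derBd hr hN F χ z hχ
  have hC0 : 0 < C₀ := by linarith
  obtain ⟨κ', hκ'⟩ : ∃ κ' : ℝ, κ' = min κ (1 / 16) := ⟨_, rfl⟩
  have hκ'0 : 0 < κ' := by rw [hκ']; exact lt_min hκ (by norm_num)
  have hκ'1 : κ' ≤ 1 / 16 := by rw [hκ']; exact min_le_right _ _
  have hκ'2 : κ' ≤ κ := by rw [hκ']; exact min_le_left _ _
  obtain ⟨Λ₀, hΛ₀⟩ := haa n (max k 1) κ' hκ'0 hκ'1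
  have hmax : max (max k 1) 1 = max k 1 := max_eq_left (le_max_right _ _)
  rw [hmax] at hΛ₀
  obtain ⟨a, haD⟩ : ∃ a : ℕ, a = aa n (max k 1) := ⟨_, rfl⟩
  rw [← haD] at hΛ₀
  obtain ⟨M₁, hM₁⟩ := exists_nat_ge Λ₀
  obtain ⟨W, hW, c, hc, hWc⟩ := fin_time' F F.continuous z
    (fun m hm1 hmz => by
      obtain ⟨y, hy, hy'⟩ := hno F hFU z hzO ⟨m, hm1, hmz⟩
      exact hy' rfl) M₁
  have hW2 : χ ⁻¹' (ball (0 : V n) κ') ∈ 𝓝 z := by
    refine (χ.continuousAt hχ.src).preimage_mem_nhds ?_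
    rw [hχ.zero]
    exact ball_mem_nhds _ hκ'0
  obtain ⟨L, hL, hL1⟩ := hN χ z hχ
  obtain ⟨δ, hδ, hδ1⟩ := unif_close hχ
  obtain ⟨cf, hcf⟩ : ∃ cf : ℝ, cf = min (min c δ) (min (1 / (8 * L)) (1 / (L * C₀ ^ a))) :=
    ⟨_, rfl⟩
  have hcf0 : 0 < cf := by
    rw [hcf]
    exact lt_min (lt_min hc hδ) (lt_min (by positivity) (by positivity))
  have hcfc : cf ≤ c := by rw [hcf]; exact (min_le_left _ _).trans (min_le_left _ _)
  have hcfδ : cf ≤ δ := by rw [hcf]; exact (min_le_left _ _).trans (min_le_right _ _)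
  have hcfL : L * cf ≤ 1 / 8 := by
    have h : cf ≤ 1 / (8 * L) := by rw [hcf]; exact (min_le_right _ _).trans (min_le_left _ _)
    have h2 := mul_le_mul_of_nonneg_left h hL.le
    have e : L * (1 / (8 * L)) = 1 / 8 := by field_simp
    linarith
  have hcfC : L * cf ≤ 1 / C₀ ^ a := by
    have h : cf ≤ 1 / (L * C₀ ^ a) := by rw [hcf]; exact (min_le_right _ _).trans (min_le_right _ _)
    have h2 := mul_le_mul_of_nonneg_left h hL.le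
    have e : L * (1 / (L * C₀ ^ a)) = 1 / C₀ ^ a := by field_simp
    linarith
  refine ⟨max k 1, hk1r, W ∩ (χ.source ∩ χ ⁻¹' (ball (0 : V n) κ')),
    inter_mem hW (inter_mem (χ.open_source.mem_nhds hχ.src) hW2), cf, hcf0, ?_⟩
  rintro y ⟨hyW, hys, hyb⟩ m hm
  simp only []
  rw [← haD]
  have hyκ : ‖χ y‖ < κ' := by simpa using hyb
  have hm1 : (1 : ℝ) ≤ m := by exact_mod_cast hm
  obtain ⟨Γ, hΓd⟩ : ∃ Γ : ℝ, Γ = Λ m := ⟨_, rfl⟩
  have hmΓ : (m : ℝ) ≤ Γ := by rw [hΓd]; exact hmΛ m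
  have hΓ1 : 1 ≤ Γ := hm1.trans hmΓ
  have hΓ0 : 0 < Γ := by linarith
  have hΓp : 1 ≤ Γ ^ (4 * a) := one_le_pow₀ hΓ1
  rw [← hΓd]
  by_cases hmM : m < M₁
  · calc cf / Γ ^ (4 * a) ≤ cf := div_le_self hcf0.le hΓp
      _ ≤ c := hcfc
      _ ≤ _ := hWc y hyW m hm hmM
  · by_contra hlt
    push Not at hlt
    have hm1' : M₁ ≤ m := not_lt.1 hmM
    have hy4 : ‖χ y‖ ≤ 1 / 4 := by linarith
    have hdlt : dist (F^[m] y) y < cf := hlt.trans_le (div_le_self hcf0.le hΓp)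
    obtain ⟨hmy, hmy2⟩ := hδ1 y hys hy4 (F^[m] y) (by rw [dist_comm]; linarith)
    have hχd := (hL1 (F^[m] y) hmy y hys hmy2.le (by linarith)).2
    have hlt8 : ‖χ (F^[m] y) - χ y‖ < 1 / 8 := by
      refine hχd.trans_lt (lt_of_lt_of_le ?_ hcfL)
      exact mul_lt_mul_of_pos_left hdlt hL
    obtain ⟨Λ', hΛ'⟩ : ∃ Λ' : ℝ, Λ' = C₀ * (m * Γ ^ 3) := ⟨_, rfl⟩
    have hDB' := hDB m hm Γ hΓ1 (by rw [hΓd]; exact hΛ m)
    rw [← hΛ'] at hDB'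
    have hΓ3 : 1 ≤ Γ ^ 3 := one_le_pow₀ hΓ1
    have hmΓ3 : (m : ℝ) ≤ m * Γ ^ 3 := by nlinarith
    have hΛ'C : C₀ ≤ Λ' := by
      rw [hΛ']
      nlinarith
    have hΛ'm : (m : ℝ) ≤ Λ' := by
      rw [hΛ']
      nlinarith
    have hΛ'0 : 0 < Λ' := by linarith
    have hΛ'up : Λ' ^ a ≤ C₀ ^ a * Γ ^ (4 * a) := by
      have e1 : C₀ ^ a * Γ ^ (4 * a) = (C₀ * Γ ^ 4) ^ a := by rw [mul_pow, ← pow_mul]
      rw [e1]
      refine pow_le_pow_left₀ hΛ'0.le ?_ a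
      rw [hΛ']
      refine mul_le_mul_of_nonneg_left ?_ hC0.le
      have e2 : Γ ^ 4 = Γ * Γ ^ 3 := by ring
      rw [e2]
      exact mul_le_mul_of_nonneg_right hmΓ (by positivity)
    have hlta : ‖χ (F^[m] y) - χ y‖ ≤ Λ'⁻¹ ^ a := by
      calc ‖χ (F^[m] y) - χ y‖ ≤ L * dist (F^[m] y) y := hχd
        _ ≤ L * (cf / Γ ^ (4 * a)) := mul_le_mul_of_nonneg_left hlt.le hL.le
        _ = (L * cf) / Γ ^ (4 * a) := by ring
        _ ≤ (1 / C₀ ^ a) / Γ ^ (4 * a) := div_le_div_of_nonneg_right hcfC (by positivity)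
        _ = (C₀ ^ a * Γ ^ (4 * a))⁻¹ := by
            rw [mul_inv, one_div, div_eq_mul_inv]
        _ ≤ (Λ' ^ a)⁻¹ := inv_anti₀ (by positivity) hΛ'up
        _ = Λ'⁻¹ ^ a := (inv_pow _ _).symm
    obtain ⟨A, hA⟩ := acmG hDB' (hC16.trans hΛ'C) y hys (hyκ.le.trans hκ'1)
    have hPm : it F (m : ℤ) y ∈ χ.source ∧ ‖χ (it F (m : ℤ) y)‖ ≤ 1 / 4 := by
      rw [Pool.Agent.W723.SC.it_nat]
      refine ⟨hmy, ?_⟩
      calc ‖χ (F^[m] y)‖ = ‖(χ (F^[m] y) - χ y) + χ y‖ := by rw [sub_add_cancel]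
        _ ≤ ‖χ (F^[m] y) - χ y‖ + ‖χ y‖ := norm_add_le _ _
        _ ≤ 1 / 4 := by linarith
    have hM₁m : (M₁ : ℝ) ≤ m := by exact_mod_cast hm1'
    obtain ⟨q, ρ, hq1, hqm, hPq, hρ0, hρκ, hvq, hlow⟩ := hΛ₀ m Λ' _ _ A hA
      (by linarith) hΛ'm hm
      hPm (by simpa only [Pool.Agent.W723.SC.it_nat] using hlta)
    obtain ⟨q', rfl⟩ := Int.eq_ofNat_of_zero_le (by omega : 0 ≤ q)
    simp only [Pool.Agent.W723.SC.it_nat] at hPq hvq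
    have hρ1 : ρ ≤ 1 := by linarith
    obtain ⟨G, hGU, z', hz'O, hGz', hGF⟩ := hcl y ρ q' hys (hyκ.trans_le hκ'2) hρ0
      (hρκ.trans_le hκ'2) (by exact_mod_cast hq1) hPq.1
      (by
        refine hvq.trans_le ?_
        have e1 : ρ ^ (max k 1) ≤ ρ ^ k := pow_le_pow_of_le_one hρ0.le hρ1 (le_max_left _ _)
        exact mul_le_mul hκ'2 e1 (by positivity) hκ.le)
      (by
        intro i hi0 hiq his
        by_cases h4 : ‖χ (F^[i] y)‖ ≤ 1 / 4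
        · have := hlow (i : ℤ) (by exact_mod_cast hi0) (by exact_mod_cast hiq)
            (by rw [Pool.Agent.W723.SC.it_nat]; exact ⟨his, h4⟩)
          rwa [Pool.Agent.W723.SC.it_nat] at this
        · push Not at h4
          have e2 : ‖χ (F^[i] y)‖ ≤ ‖χ (F^[i] y) - χ y‖ + ‖χ y‖ := by
            calc ‖χ (F^[i] y)‖ = ‖(χ (F^[i] y) - χ y) + χ y‖ := by rw [sub_add_cancel]
              _ ≤ _ := norm_add_le _ _
          have e3 : ‖χ (F^[i] y) - χ y‖ ≥ 2 * ρ := by linarith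
          exact e3)
    obtain ⟨y', hy', hy''⟩ := hno G hGU z' hz'O hGz'
    exact hy'' (hGF y' hy')

end Pool.Agent.Q154.OS
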